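import Pool.Agent.W410.IX.MolA

/-! Project IX, part MOL: the flow theorem for Lipschitz gradients. -/

set_option autoImplicit false

namespace Pool.Agent.W410.IX.Mol

open MeasureTheory Set Filter Topology
open Pool.Agent.W488.IW Pool.Agent.W488.IX

theorem haar : (volume : Measure CC).IsAddHaarMeasure := by
  rw [Measure.volume_eq_prod]
  infer_instance

theorem neg_inv : (volume : Measure CC).IsNegInvariant := by
  have := haar
  exact Measure.IsAddHaarMeasure.isNegInvariant_of_regular _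

/-- the pointwise inequality for the mollified functions -/
theorem moll_ineq (h1 : S_MOL1) {m : CC → ℂ} {n : ℝ} {w e g : CC → ℝ} {Kw Ke Kg : NNReal}
    {L : ℝ} (hL0 : 0 ≤ L)
    (hL : ∀ F F' : CC, ‖m F - m F'‖ ≤ L * (‖F.1 - F'.1‖ + ‖F.2 - F'.2‖))
    (hKw : LipschitzWith Kw (fderiv ℝ w)) (hKe : LipschitzWith Ke e) (hKg : LipschitzWith Kg g)
    (hcert : ∀ᵐ F ∂(volume : Measure (ℂ × ℂ)), Cert m n w e g F)
    (ρ : ContDiffBump (0 : CC)) (F : CC) (p q r : ℂ) :
    -((4 * Kw * L + 2 * Ke + 2 * Kg) * ρ.rOut * (‖p‖ + ‖q‖ + ‖r‖) ^ 2) ≤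
      2 * DVL p q r (Vm m n F p q r)
        (∫ y : CC, ρ.normed volume y • fderiv ℝ (fderiv ℝ w) (F - y)) +
      (OAL F.1 p q r (∫ y : CC, ρ.normed volume y • fderiv ℝ e (F - y)) +
        2 * (‖p‖ ^ 2 - ‖q‖ ^ 2) * mo ρ e F) +
      (OBL F.2 p q r (∫ y : CC, ρ.normed volume y • fderiv ℝ g (F - y)) +
        2 * (‖q‖ ^ 2 - ‖r‖ ^ 2) * mo ρ g F) := by
  set C := (4 * Kw * L + 2 * Ke + 2 * Kg) * ρ.rOut * (‖p‖ + ‖q‖ + ‖r‖) ^ 2 with hC
  have I1 := (h1 _ _ _ hKw ρ).2.2.1 F
  have I2 := (h1 _ _ _ hKe ρ).2.2.1 F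
  have I3 := (h1 _ _ _ hKg ρ).2.2.1 F
  have I4 := int_cont ρ hKe.continuous F
  have I5 := int_cont ρ hKg.continuous F
  have i1 := (DVL p q r (Vm m n F p q r)).integrable_comp I1
  have i2 := (OAL F.1 p q r).integrable_comp I2
  have i3 := (OBL F.2 p q r).integrable_comp I3
  have j1 := i1.const_mul 2
  have j4 := I4.const_mul (2 * (‖p‖ ^ 2 - ‖q‖ ^ 2))
  have j5 := I5.const_mul (2 * (‖q‖ ^ 2 - ‖r‖ ^ 2))
  have hint := (j1.add (i2.add j4)).add (i3.add j5)
  have e1 : 2 * DVL p q r (Vm m n F p q r)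
        (∫ y : CC, ρ.normed volume y • fderiv ℝ (fderiv ℝ w) (F - y)) +
      (OAL F.1 p q r (∫ y : CC, ρ.normed volume y • fderiv ℝ e (F - y)) +
        2 * (‖p‖ ^ 2 - ‖q‖ ^ 2) * mo ρ e F) +
      (OBL F.2 p q r (∫ y : CC, ρ.normed volume y • fderiv ℝ g (F - y)) +
        2 * (‖q‖ ^ 2 - ‖r‖ ^ 2) * mo ρ g F) =
      ∫ y : CC, (2 * DVL p q r (Vm m n F p q r)
          (ρ.normed volume y • fderiv ℝ (fderiv ℝ w) (F - y)) +
        (OAL F.1 p q r (ρ.normed volume y • fderiv ℝ e (F - y)) +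
          2 * (‖p‖ ^ 2 - ‖q‖ ^ 2) * (ρ.normed volume y • e (F - y))) +
        (OBL F.2 p q r (ρ.normed volume y • fderiv ℝ g (F - y)) +
          2 * (‖q‖ ^ 2 - ‖r‖ ^ 2) * (ρ.normed volume y • g (F - y)))) := by
    rw [← ContinuousLinearMap.integral_comp_comm _ I1,
      ← ContinuousLinearMap.integral_comp_comm _ I2, ← ContinuousLinearMap.integral_comp_comm _ I3]
    unfold mo
    rw [← integral_const_mul, ← integral_const_mul, ← integral_const_mul]
    have s1 := integral_add i2 j4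
    have s2 := integral_add i3 j5
    have s3 := integral_add j1 (i2.add j4)
    have s4 := integral_add (j1.add (i2.add j4)) (i3.add j5)
    simp only [Pi.add_apply] at s3 s4
    rw [s4, s3, s1, s2]
  have e2 : -C = ∫ y : CC, ρ.normed volume y * (-C) := by
    rw [integral_mul_const, ρ.integral_normed, one_mul]
  rw [e1, e2]
  refine integral_mono_ae (ρ.integrable_normed.mul_const _) hint ?_
  have := neg_inv
  have := haar
  have hae : ∀ᵐ y ∂(volume : Measure CC), Cert m n w e g (F - y) :=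
    (Measure.measurePreserving_sub_left (volume : Measure CC) F).quasiMeasurePreserving.ae hcert
  filter_upwards [hae] with y hy
  obtain ⟨-, -, -, hy⟩ := hy
  rcases lt_or_ge ‖y‖ ρ.rOut with h | h
  · have hS : 0 ≤ ‖p‖ + ‖q‖ + ‖r‖ := by positivity
    set S := ‖p‖ + ‖q‖ + ‖r‖ with hSdef
    have hpos := hy p q r
    rw [DIV_eq, OMa_eq, OMb_eq] at hpos
    have n1 : ‖fderiv ℝ (fderiv ℝ w) (F - y)‖ ≤ Kw := norm_fderiv_le_of_lipschitz ℝ hKw
    have n2 : ‖fderiv ℝ e (F - y)‖ ≤ Ke := norm_fderiv_le_of_lipschitz ℝ hKe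
    have n3 : ‖fderiv ℝ g (F - y)‖ ≤ Kg := norm_fderiv_le_of_lipschitz ℝ hKg
    have d1 := DVL_sub p q r (Vm m n F p q r) (Vm m n (F - y) p q r) _ n1
    have d2 := OAL_sub F.1 (F - y).1 p q r _ n2
    have d3 := OBL_sub F.2 (F - y).2 p q r _ n3
    have v := Vm_sub hL hL0 n F y p q r
    have f1 : ‖F.1 - (F - y).1‖ ≤ ρ.rOut := by
      rw [Prod.fst_sub, sub_sub_cancel]
      exact (norm_fst_le y).trans h.le
    have f2 : ‖F.2 - (F - y).2‖ ≤ ρ.rOut := by
      rw [Prod.snd_sub, sub_sub_cancel]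
      exact (norm_snd_le y).trans h.le
    rw [← hSdef] at d1 d2 d3 v
    have g1 : Kw * S * ‖Vm m n F p q r - Vm m n (F - y) p q r‖ ≤
        Kw * S * (2 * L * ρ.rOut * S) := by
      refine mul_le_mul_of_nonneg_left (v.trans ?_) (by positivity)
      refine mul_le_mul_of_nonneg_right ?_ hS
      exact mul_le_mul_of_nonneg_left h.le (by positivity)
    have g2 : 2 * (Ke : ℝ) * S ^ 2 * ‖F.1 - (F - y).1‖ ≤ 2 * Ke * S ^ 2 * ρ.rOut :=
      mul_le_mul_of_nonneg_left f1 (by positivity)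
    have g3 : 2 * (Kg : ℝ) * S ^ 2 * ‖F.2 - (F - y).2‖ ≤ 2 * Kg * S ^ 2 * ρ.rOut :=
      mul_le_mul_of_nonneg_left f2 (by positivity)
    have a1 := (abs_le.mp (d1.trans g1)).1
    have a2 := (abs_le.mp (d2.trans g2)).1
    have a3 := (abs_le.mp (d3.trans g3)).1
    simp only [map_smul, smul_eq_mul]
    have key : -C ≤ 2 * DVL p q r (Vm m n F p q r) (fderiv ℝ (fderiv ℝ w) (F - y)) +
        (OAL F.1 p q r (fderiv ℝ e (F - y)) + 2 * (‖p‖ ^ 2 - ‖q‖ ^ 2) * e (F - y)) +
        (OBL F.2 p q r (fderiv ℝ g (F - y)) + 2 * (‖q‖ ^ 2 - ‖r‖ ^ 2) * g (F - y)) := by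
      rw [hC]
      linarith
    calc ρ.normed volume y * -C ≤ ρ.normed volume y *
        (2 * DVL p q r (Vm m n F p q r) (fderiv ℝ (fderiv ℝ w) (F - y)) +
        (OAL F.1 p q r (fderiv ℝ e (F - y)) + 2 * (‖p‖ ^ 2 - ‖q‖ ^ 2) * e (F - y)) +
        (OBL F.2 p q r (fderiv ℝ g (F - y)) + 2 * (‖q‖ ^ 2 - ‖r‖ ^ 2) * g (F - y))) :=
          mul_le_mul_of_nonneg_left key (ρ.nonneg_normed y)
      _ = _ := by ring
  · rw [rho_zero ρ h]
    simp

theorem nka (k : Idx) : ‖ka k‖ ^ 2 = m2 k := by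
  unfold ka m2
  rw [norm_mul, norm_mul, Complex.norm_I, mul_one, mul_pow, Complex.norm_real,
    Real.norm_eq_abs, sq_abs]
  congr 1
  rw [Complex.sq_norm, Complex.normSq_apply]
  simp
  ring

theorem nkb (k : Idx) : ‖kb k‖ ^ 2 = m2 k := by
  unfold kb m2
  rw [norm_mul, norm_mul, Complex.norm_I, mul_one, mul_pow, Complex.norm_real,
    Real.norm_eq_abs, sq_abs]
  congr 1
  rw [Complex.sq_norm, Complex.normSq_apply]
  simp
  ring

theorem int_pp (hP : S_PARS) (N : ℕ) (c : Idx → ℂ) :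
    ∫ x in Icc (0 : V) 1, ‖pp (box N) c x‖ ^ 2 = di N c := by
  unfold pp di
  rw [hP]
  refine Finset.sum_congr rfl fun k _ => ?_
  rw [norm_mul, norm_pow, mul_pow, ← pow_mul, mul_comm 2 2, pow_mul, nka]

theorem int_qq (hP : S_PARS) (N : ℕ) (c : Idx → ℂ) :
    ∫ x in Icc (0 : V) 1, ‖qq (box N) c x‖ ^ 2 = di N c := by
  unfold qq di
  rw [hP]
  refine Finset.sum_congr rfl fun k _ => ?_
  rw [norm_mul, norm_mul, mul_pow, mul_pow, nka, nkb, sq (m2 k)]

theorem int_rr (hP : S_PARS) (N : ℕ) (c : Idx → ℂ) :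
    ∫ x in Icc (0 : V) 1, ‖rr (box N) c x‖ ^ 2 = di N c := by
  unfold rr di
  rw [hP]
  refine Finset.sum_congr rfl fun k _ => ?_
  rw [norm_mul, norm_pow, mul_pow, ← pow_mul, mul_comm 2 2, pow_mul, nkb]

theorem sq3 (a b c : ℝ) : (a + b + c) ^ 2 ≤ 3 * (a ^ 2 + b ^ 2 + c ^ 2) := by
  nlinarith [sq_nonneg (a - b), sq_nonneg (b - c), sq_nonneg (a - c)]

theorem continuous_m {m : CC → ℂ} {L : ℝ}
    (hL : ∀ F F' : CC, ‖m F - m F'‖ ≤ L * (‖F.1 - F'.1‖ + ‖F.2 - F'.2‖)) (hL0 : 0 ≤ L) :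
    Continuous m := by
  have : LipschitzWith (Real.toNNReal (2 * L)) m := by
    refine LipschitzWith.of_dist_le_mul fun F F' => ?_
    rw [dist_eq_norm, dist_eq_norm, Real.coe_toNNReal _ (by positivity)]
    refine (hL F F').trans ?_
    have h1 : ‖F.1 - F'.1‖ ≤ ‖F - F'‖ := norm_fst_le (F - F')
    have h2 : ‖F.2 - F'.2‖ ≤ ‖F - F'‖ := norm_snd_le (F - F')
    calc L * (‖F.1 - F'.1‖ + ‖F.2 - F'.2‖) ≤ L * (‖F - F'‖ + ‖F - F'‖) :=
          mul_le_mul_of_nonneg_left (add_le_add h1 h2) hL0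
      _ = 2 * L * ‖F - F'‖ := by ring
  exact this.continuous

open Pool.Agent.W411.IW.Qt in
theorem main (h1 : S_MOL1) (hF : S_FLOWM) (hN : S_NULL) (hP : S_PARS) : S_MOL := by
  intro m n hm hn w e g hw ⟨Kw, hKw⟩ ⟨Ke, hKe⟩ ⟨Kg, hKg⟩ hw0 hdw0 hcert N c
  obtain ⟨L, hL0, hL⟩ : ∃ L : ℝ, 0 ≤ L ∧
      ∀ F F' : CC, ‖m F - m F'‖ ≤ L * (‖F.1 - F'.1‖ + ‖F.2 - F'.2‖) := by
    obtain ⟨L, hL⟩ := hm.lip
    exact ⟨|L|, abs_nonneg L, fun F F' => (hL F F').trans
      (mul_le_mul_of_nonneg_right (le_abs_self L) (by positivity))⟩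
  have cm := continuous_m hL hL0
  -- bound for the gradient
  obtain ⟨M, hM⟩ := isCompact_Icc.exists_bound_of_continuousOn
    (f := gd (box N) c) (s := Icc (0 : V) 1) (continuous_gd (box N) c).continuousOn
  have hM0 : 0 ≤ M := (norm_nonneg _).trans (hM 0 (left_mem_Icc.mpr zero_le_one))
  set v := (volume : Measure V).real (Icc (0 : V) 1) with hv
  have hv0 : 0 ≤ v := measureReal_nonneg
  set C0 : ℝ := 4 * Kw * L + 2 * Ke + 2 * Kg with hC0
  have hC00 : 0 ≤ C0 := by positivity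
  have hen : 0 ≤ en N c := by
    unfold en
    refine Finset.sum_nonneg fun k _ => mul_nonneg ?_ (by positivity)
    unfold m2
    positivity
  -- the inequality for radius `r`
  have main_r : ∀ r : ℝ, 0 < r → r ≤ 1 →
      -(r * (9 / 2 * C0 / (2 * (n - 2)) * en N c + Kw * (2 * M + 2) * v)) ≤
        ∫ x in Icc (0 : V) 1, w (gd (box N) c x) := by
    intro r hr hr1
    let ρ : ContDiffBump (0 : CC) := ⟨r / 2, r, by linarith, by linarith⟩
    have hρr : ρ.rOut = r := rfl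
    set A : CC → (CC →L[ℝ] ℝ) := mo ρ (fderiv ℝ w) with hA
    obtain ⟨cA, dA, iA, sA⟩ := h1 _ _ _ hKw ρ
    obtain ⟨ce, de, ie, se⟩ := h1 _ _ _ hKe ρ
    obtain ⟨cg, dg, ig, sg⟩ := h1 _ _ _ hKg ρ
    set W : CC → ℝ := fun F => mo ρ w F - mo ρ w 0 - A 0 F with hW
    have dW : ∀ F, HasFDerivAt W (A F - A 0) F := by
      intro F
      exact ((mo_deriv ρ hw hKw hdw0 F).sub_const _).sub (A 0).hasFDerivAt
    have fW' : fderiv ℝ W = fun F => A F - A 0 := by
      funext F
      exact (dW F).fderiv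
    have ddW : ∀ F, fderiv ℝ (fderiv ℝ W) F =
        ∫ y : CC, ρ.normed volume y • fderiv ℝ (fderiv ℝ w) (F - y) := by
      intro F
      rw [fW']
      exact ((dA F).sub_const (A 0)).fderiv
    have cW : ContDiff ℝ 2 W := by
      rw [show (2 : WithTop ℕ∞) = 1 + 1 from (one_add_one_eq_two).symm, contDiff_succ_iff_fderiv]
      refine ⟨fun F => (dW F).differentiableAt, by simp, ?_⟩
      rw [fW']
      exact (cA.of_le (by exact_mod_cast le_top)).sub contDiff_const
    have bW : ∀ F, ‖fderiv ℝ (fderiv ℝ W) F‖ ≤ Kw := by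
      intro F
      rw [ddW]
      exact norm_mo_le ρ F fun y _ => norm_fderiv_le_of_lipschitz ℝ hKw
    have W0 : W 0 = 0 := by
      simp only [hW, sub_self, map_zero]
    have dW0 : fderiv ℝ W 0 = 0 := by
      rw [fW']
      exact sub_self _
    have ce1 : ContDiff ℝ 1 (mo ρ e) := ce.of_le (by exact_mod_cast le_top)
    have cg1 : ContDiff ℝ 1 (mo ρ g) := cg.of_le (by exact_mod_cast le_top)
    have pt : ∀ (F : CC) (p q s : ℂ), -(C0 * r * (‖p‖ + ‖q‖ + ‖s‖) ^ 2) ≤
        2 * DIV W F p q s (Vm m n F p q s) + OMa (mo ρ e) F p q s + OMb (mo ρ g) F p q s := by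
      intro F p q s
      have h := moll_ineq h1 hL0 hL hKw hKe hKg hcert ρ F p q s
      rw [DIV_eq, OMa_eq, OMb_eq, ddW, show fderiv ℝ (mo ρ e) F = _ from (de F).fderiv,
        show fderiv ℝ (mo ρ g) F = _ from (dg F).fderiv]
      exact h
    have hcond : ∀ (N : ℕ) (c : Idx → ℂ), -(9 / 2 * C0 * r * di N c) ≤ ∫ x in Icc (0 : V) 1,
        DIV W (gd (box N) c x) (pp (box N) c x) (qq (box N) c x) (rr (box N) c x)
          (Vpm m n (box N) c x) := by
      intro N c
      have hn1 := (hN (mo ρ e) ce1 (box N) c).1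
      have hn2 := (hN (mo ρ g) cg1 (box N) c).2
      have kg := continuous_gd (box N) c
      have kp := continuous_pp (box N) c
      have kq := continuous_qq (box N) c
      have kr := continuous_rr (box N) c
      have kV : Continuous (Vpm m n (box N) c) := by
        unfold Vpm Vm
        have h1 : Continuous (fun x => m (gd (box N) c x)) := cm.comp kg
        exact ((continuous_const.mul kq).add (h1.mul kp)).add
          ((Complex.continuous_conj.comp h1).mul kr)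
      have i1 : IntegrableOn (fun x => DIV W (gd (box N) c x) (pp (box N) c x)
          (qq (box N) c x) (rr (box N) c x) (Vpm m n (box N) c x)) (Icc (0 : V) 1) :=
        (continuous_DIV cW kg kp kq kr kV).integrableOn_Icc
      have i2 : IntegrableOn (fun x => OMa (mo ρ e) (gd (box N) c x) (pp (box N) c x)
          (qq (box N) c x) (rr (box N) c x)) (Icc (0 : V) 1) :=
        (continuous_OMa ce1 kg kp kq kr).integrableOn_Icc
      have i3 : IntegrableOn (fun x => OMb (mo ρ g) (gd (box N) c x) (pp (box N) c x)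
          (qq (box N) c x) (rr (box N) c x)) (Icc (0 : V) 1) :=
        (continuous_OMb cg1 kg kp kq kr).integrableOn_Icc
      have q1 : IntegrableOn (fun x => ‖pp (box N) c x‖ ^ 2) (Icc (0 : V) 1) :=
        (kp.norm.pow 2).integrableOn_Icc
      have q2 : IntegrableOn (fun x => ‖qq (box N) c x‖ ^ 2) (Icc (0 : V) 1) :=
        (kq.norm.pow 2).integrableOn_Icc
      have q3 : IntegrableOn (fun x => ‖rr (box N) c x‖ ^ 2) (Icc (0 : V) 1) :=
        (kr.norm.pow 2).integrableOn_Icc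
      have e4 : ∫ x in Icc (0 : V) 1, (-(3 * C0 * r)) * (‖pp (box N) c x‖ ^ 2 +
          ‖qq (box N) c x‖ ^ 2 + ‖rr (box N) c x‖ ^ 2) = -(9 * C0 * r * di N c) := by
        have s1 := integral_add (q1.add q2) q3
        have s2 := integral_add q1 q2
        simp only [Pi.add_apply] at s1
        rw [integral_const_mul, s1, s2, int_pp hP, int_qq hP, int_rr hP]
        ring
      have key : ∫ x in Icc (0 : V) 1, (-(3 * C0 * r)) * (‖pp (box N) c x‖ ^ 2 +
          ‖qq (box N) c x‖ ^ 2 + ‖rr (box N) c x‖ ^ 2) ≤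
          ∫ x in Icc (0 : V) 1, (2 * DIV W (gd (box N) c x) (pp (box N) c x)
          (qq (box N) c x) (rr (box N) c x) (Vpm m n (box N) c x) +
          OMa (mo ρ e) (gd (box N) c x) (pp (box N) c x) (qq (box N) c x) (rr (box N) c x) +
          OMb (mo ρ g) (gd (box N) c x) (pp (box N) c x) (qq (box N) c x) (rr (box N) c x)) := by
        refine integral_mono (((q1.add q2).add q3).const_mul _)
          (((i1.const_mul 2).add i2).add i3) ?_
        intro x
        have h5 := pt (gd (box N) c x) (pp (box N) c x) (qq (box N) c x) (rr (box N) c x)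
        have h6 := mul_le_mul_of_nonneg_left
          (sq3 ‖pp (box N) c x‖ ‖qq (box N) c x‖ ‖rr (box N) c x‖)
          (mul_nonneg hC00 hr.le)
        refine le_trans ?_ h5
        show -(3 * C0 * r) * (‖pp (box N) c x‖ ^ 2 + ‖qq (box N) c x‖ ^ 2 +
          ‖rr (box N) c x‖ ^ 2) ≤ _
        linarith
      rw [int3 i1 i2 i3, hn1, hn2, e4] at key
      linarith
    have hflow := hF m n hm hn W cW ⟨Kw, bW⟩ W0 dW0 (9 / 2 * C0 * r) (by positivity) hcond N c
    -- comparison of `W` and `w`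
    have hA0 : ‖A 0‖ ≤ Kw * r := by
      refine norm_mo_le ρ 0 fun y hy => ?_
      refine (dw_le hKw hdw0 _).trans (mul_le_mul_of_nonneg_left ?_ Kw.coe_nonneg)
      rw [zero_sub, norm_neg, ← hρr]
      exact hy.le
    have hcmp : ∀ F : CC, ‖F‖ ≤ M → W F ≤ w F + r * (Kw * (2 * M + 2)) := by
      intro F hFM
      have c1 := (abs_le.mp (w_close ρ hw hKw hdw0 F)).2
      have c2 := (abs_le.mp (w_close ρ hw hKw hdw0 0)).1
      rw [hw0, norm_zero, hρr] at c2
      rw [hρr] at c1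
      have c3 : |A 0 F| ≤ Kw * r * M :=
        ((A 0).le_opNorm F).trans (mul_le_mul hA0 hFM (norm_nonneg _) (by positivity))
      have c4 := (abs_le.mp c3).1
      have c5 : Kw * (‖F‖ + r) * r ≤ Kw * (M + 1) * r :=
        mul_le_mul_of_nonneg_right (mul_le_mul_of_nonneg_left (add_le_add hFM hr1)
          Kw.coe_nonneg) hr.le
      have c6 : Kw * (0 + r) * r ≤ Kw * 1 * r :=
        mul_le_mul_of_nonneg_right (mul_le_mul_of_nonneg_left (by linarith)
          Kw.coe_nonneg) hr.le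
      have : W F = mo ρ w F - mo ρ w 0 - A 0 F := rfl
      rw [this]
      linarith
    have hint : ∫ x in Icc (0 : V) 1, W (gd (box N) c x) ≤
        (∫ x in Icc (0 : V) 1, w (gd (box N) c x)) + r * (Kw * (2 * M + 2)) * v := by
      have k1 : IntegrableOn (fun x => W (gd (box N) c x)) (Icc (0 : V) 1) :=
        (cW.continuous.comp (continuous_gd (box N) c)).integrableOn_Icc
      have k2 : IntegrableOn (fun x => w (gd (box N) c x)) (Icc (0 : V) 1) :=
        (hw.continuous.comp (continuous_gd (box N) c)).integrableOn_Icc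
      have k3 : IntegrableOn (fun _ : V => r * (Kw * (2 * M + 2))) (Icc (0 : V) 1) :=
        continuous_const.integrableOn_Icc
      calc ∫ x in Icc (0 : V) 1, W (gd (box N) c x) ≤
          ∫ x in Icc (0 : V) 1, (w (gd (box N) c x) + r * (Kw * (2 * M + 2))) :=
            setIntegral_mono_on k1 (k2.add k3) measurableSet_Icc
              (fun x hx => hcmp _ (hM x hx))
        _ = _ := by
            rw [integral_add k2 k3, setIntegral_const, smul_eq_mul, mul_comm v]
    have hn2 : 0 < 2 * (n - 2) := by linarith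
    have e5 : 9 / 2 * C0 * r / (2 * (n - 2)) * en N c =
        r * (9 / 2 * C0 / (2 * (n - 2)) * en N c) := by ring
    rw [e5] at hflow
    linarith
  -- conclusion
  set C3 := 9 / 2 * C0 / (2 * (n - 2)) * en N c + Kw * (2 * M + 2) * v with hC3
  have hC30 : 0 ≤ C3 := by
    have hn2 : 0 < 2 * (n - 2) := by linarith
    positivity
  by_contra hneg
  push Not at hneg
  set J := ∫ x in Icc (0 : V) 1, w (gd (box N) c x) with hJ
  have h7 := main_r (min 1 (-J / (2 * (C3 + 1)))) (by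
    refine lt_min one_pos (div_pos (by linarith) (by linarith))) (min_le_left _ _)
  have h8 : min 1 (-J / (2 * (C3 + 1))) * C3 ≤ -J / (2 * (C3 + 1)) * C3 :=
    mul_le_mul_of_nonneg_right (min_le_right _ _) hC30
  have h9 : -J / (2 * (C3 + 1)) * C3 ≤ -J / 2 := by
    rw [div_mul_eq_mul_div, div_le_div_iff₀ (by linarith) (by norm_num)]
    nlinarith
  linarith

end Pool.Agent.W410.IX.Mol
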