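import Pool.Agent.W411.IW.Qt
import Pool.Agent.W488.IX.Stm

/-! Project IX, part MOL, first half: mollification. -/

set_option autoImplicit false

namespace Pool.Agent.W410.IX.Mol

open MeasureTheory Set Filter Topology
open Pool.Agent.W488.IW Pool.Agent.W488.IX

/-- the space of gradients -/
abbrev CC := ℂ × ℂ

/-- mollification -/
noncomputable def mo {G : Type} [NormedAddCommGroup G] [NormedSpace ℝ G]
    (ρ : ContDiffBump (0 : CC)) (f : CC → G) (F : CC) : G :=
  ∫ y : CC, ρ.normed volume y • f (F - y)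

section

variable {G : Type} [NormedAddCommGroup G] [NormedSpace ℝ G] (ρ : ContDiffBump (0 : CC))

theorem rho_zero {y : CC} (hy : ρ.rOut ≤ ‖y‖) : ρ.normed volume y = 0 := by
  by_contra h
  have h1 : y ∈ Function.support (ρ.normed (volume : Measure CC)) := h
  rw [ρ.support_normed_eq, Metric.mem_ball, dist_zero_right] at h1
  linarith

theorem int_cont {f : CC → G} (hf : Continuous f) (F : CC) :
    Integrable (fun y : CC => ρ.normed volume y • f (F - y)) := by
  refine Continuous.integrable_of_hasCompactSupport ?_ ?_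
  · exact ρ.continuous_normed.smul (hf.comp (continuous_const.sub continuous_id))
  · exact ρ.hasCompactSupport_normed.smul_right

theorem norm_mo_le [CompleteSpace G] {f : CC → G} {C : ℝ} (F : CC)
    (hC : ∀ y : CC, ‖y‖ < ρ.rOut → ‖f (F - y)‖ ≤ C) : ‖mo ρ f F‖ ≤ C := by
  unfold mo
  have h1 : ‖∫ y : CC, ρ.normed volume y • f (F - y)‖ ≤ ∫ y : CC, ρ.normed volume y * C := by
    refine norm_integral_le_of_norm_le (ρ.integrable_normed.mul_const C) ?_
    refine Filter.Eventually.of_forall fun y => ?_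
    rw [norm_smul, Real.norm_of_nonneg (ρ.nonneg_normed y)]
    rcases lt_or_ge ‖y‖ ρ.rOut with h | h
    · exact mul_le_mul_of_nonneg_left (hC y h) (ρ.nonneg_normed y)
    · rw [rho_zero ρ h, zero_mul, zero_mul]
  rw [integral_mul_const, ρ.integral_normed, one_mul] at h1
  exact h1

/-- closeness -/
theorem mo_sub_le [CompleteSpace G] {f : CC → G} (hf : Continuous f) {C : ℝ} (F : CC)
    (hC : ∀ y : CC, ‖y‖ < ρ.rOut → ‖f (F - y) - f F‖ ≤ C) : ‖mo ρ f F - f F‖ ≤ C := by
  have h2 : mo ρ f F - f F = ∫ y : CC, ρ.normed volume y • (f (F - y) - f F) := by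
    unfold mo
    have h3 : ∫ y : CC, ρ.normed volume y • f F = f F := by
      rw [integral_smul_const, ρ.integral_normed, one_smul]
    conv_lhs => rw [← h3]
    rw [← integral_sub (int_cont ρ hf F) (ρ.integrable_normed.smul_const _)]
    refine integral_congr_ae (Filter.Eventually.of_forall fun y => ?_)
    simp only
    rw [smul_sub]
  rw [h2]
  have h1 : ‖∫ y : CC, ρ.normed volume y • (f (F - y) - f F)‖ ≤
      ∫ y : CC, ρ.normed volume y * C := by
    refine norm_integral_le_of_norm_le (ρ.integrable_normed.mul_const C) ?_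
    refine Filter.Eventually.of_forall fun y => ?_
    rw [norm_smul, Real.norm_of_nonneg (ρ.nonneg_normed y)]
    rcases lt_or_ge ‖y‖ ρ.rOut with h | h
    · exact mul_le_mul_of_nonneg_left (hC y h) (ρ.nonneg_normed y)
    · rw [rho_zero ρ h, zero_mul, zero_mul]
  rw [integral_mul_const, ρ.integral_normed, one_mul] at h1
  exact h1

variable {w : CC → ℝ} {K : NNReal}

theorem dw_le (hK : LipschitzWith K (fderiv ℝ w)) (h0 : fderiv ℝ w 0 = 0) (F : CC) :
    ‖fderiv ℝ w F‖ ≤ K * ‖F‖ := by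
  have h := hK.dist_le_mul F 0
  rwa [h0, dist_zero_right, dist_zero_right] at h

/-- the derivative of the mollification of a function with Lipschitz gradient -/
theorem mo_deriv (hw : Differentiable ℝ w) (hK : LipschitzWith K (fderiv ℝ w))
    (h0 : fderiv ℝ w 0 = 0) (F : CC) :
    HasFDerivAt (mo ρ w) (mo ρ (fderiv ℝ w) F) F := by
  unfold mo
  refine hasFDerivAt_integral_of_dominated_of_fderiv_le (s := Metric.ball F 1)
    (F := fun F y => ρ.normed volume y • w (F - y))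
    (F' := fun F y => ρ.normed volume y • fderiv ℝ w (F - y))
    (bound := fun y => ρ.normed volume y * (K * (‖F‖ + 1 + ρ.rOut)))
    (Metric.ball_mem_nhds F one_pos) ?_ (int_cont ρ hw.continuous F) ?_ ?_ ?_ ?_
  · exact Filter.Eventually.of_forall fun F' => (int_cont ρ hw.continuous F').aestronglyMeasurable
  · exact (int_cont ρ hK.continuous F).aestronglyMeasurable
  · refine Filter.Eventually.of_forall fun y F' hF' => ?_
    rw [norm_smul, Real.norm_of_nonneg (ρ.nonneg_normed y)]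
    rcases lt_or_ge ‖y‖ ρ.rOut with h | h
    · refine mul_le_mul_of_nonneg_left ((dw_le hK h0 _).trans ?_) (ρ.nonneg_normed y)
      refine mul_le_mul_of_nonneg_left ?_ K.coe_nonneg
      have h1 : ‖F'‖ ≤ ‖F‖ + 1 := by
        have h2 : ‖F' - F‖ < 1 := by rwa [Metric.mem_ball, dist_eq_norm] at hF'
        have h3 : ‖F'‖ ≤ ‖F' - F‖ + ‖F‖ := by
          simpa using norm_add_le (F' - F) F
        linarith
      have := norm_sub_le F' y
      linarith
    · rw [rho_zero ρ h, zero_mul, zero_mul]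
  · exact ρ.integrable_normed.mul_const _
  · refine Filter.Eventually.of_forall fun y F' _ => ?_
    have h1 : HasFDerivAt w (fderiv ℝ w (F' - y)) (F' - y) := (hw (F' - y)).hasFDerivAt
    have h2 : HasFDerivAt (fun z : CC => z - y) (ContinuousLinearMap.id ℝ CC) F' :=
      (hasFDerivAt_id F').sub_const y
    have h3 := h1.comp F' h2
    rw [ContinuousLinearMap.comp_id] at h3
    exact h3.const_smul (ρ.normed (volume : Measure CC) y)

theorem w_close (hw : Differentiable ℝ w) (hK : LipschitzWith K (fderiv ℝ w))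
    (h0 : fderiv ℝ w 0 = 0) (F : CC) :
    |mo ρ w F - w F| ≤ K * (‖F‖ + ρ.rOut) * ρ.rOut := by
  have h := mo_sub_le ρ hw.continuous (C := K * (‖F‖ + ρ.rOut) * ρ.rOut) F ?_
  · exact h
  intro y hy
  have hr := ρ.rOut_pos
  have hb : ∀ z ∈ Metric.ball F ρ.rOut, ‖fderiv ℝ w z‖ ≤ K * (‖F‖ + ρ.rOut) := by
    intro z hz
    refine (dw_le hK h0 z).trans (mul_le_mul_of_nonneg_left ?_ K.coe_nonneg)
    have h2 : ‖z - F‖ < ρ.rOut := by rwa [Metric.mem_ball, dist_eq_norm] at hz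
    have h3 : ‖z‖ ≤ ‖z - F‖ + ‖F‖ := by
      simpa using norm_add_le (z - F) F
    linarith
  have h4 := (convex_ball F ρ.rOut).norm_image_sub_le_of_norm_fderiv_le (𝕜 := ℝ)
    (fun z _ => hw z) hb (Metric.mem_ball_self hr)
    (show F - y ∈ Metric.ball F ρ.rOut by
      rw [Metric.mem_ball, dist_eq_norm, sub_sub_cancel_left, norm_neg]; exact hy)
  refine h4.trans (mul_le_mul_of_nonneg_left ?_ (by positivity))
  rw [sub_sub_cancel_left, norm_neg]
  exact hy.le

end

/-! ### the forms -/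

/-- the form `DIV` as a function of the second derivative -/
noncomputable def DVL (p q r φ : ℂ) : (CC →L[ℝ] CC →L[ℝ] ℝ) →L[ℝ] ℝ :=
  (ContinuousLinearMap.apply ℝ ℝ ((φ / 2, φ / 2) : CC)).comp
    (ContinuousLinearMap.apply ℝ (CC →L[ℝ] ℝ) ((p + q, q + r) : CC)) +
  (ContinuousLinearMap.apply ℝ ℝ ((-(Complex.I * φ / 2), Complex.I * φ / 2) : CC)).comp
    (ContinuousLinearMap.apply ℝ (CC →L[ℝ] ℝ)
      ((Complex.I * (p - q), Complex.I * (q - r)) : CC))

theorem DIV_eq (w : CC → ℝ) (F : CC) (p q r φ : ℂ) :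
    DIV w F p q r φ = DVL p q r φ (fderiv ℝ (fderiv ℝ w) F) := rfl

/-- the form `OMa` as a function of the first derivative -/
noncomputable def OAL (a p q r : ℂ) : (CC →L[ℝ] ℝ) →L[ℝ] ℝ :=
  ((starRingEnd ℂ) a * (Complex.I * (p - q))).im •
    ContinuousLinearMap.apply ℝ ℝ ((p + q, q + r) : CC) -
  ((starRingEnd ℂ) a * (p + q)).im •
    ContinuousLinearMap.apply ℝ ℝ ((Complex.I * (p - q), Complex.I * (q - r)) : CC)

theorem OMa_eq (e : CC → ℝ) (F : CC) (p q r : ℂ) :
    OMa e F p q r = OAL F.1 p q r (fderiv ℝ e F) + 2 * (‖p‖ ^ 2 - ‖q‖ ^ 2) * e F := by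
  unfold OMa OAL
  simp only [_root_.sub_apply, _root_.smul_apply,
    ContinuousLinearMap.apply_apply, smul_eq_mul]
  ring

/-- the form `OMb` as a function of the first derivative -/
noncomputable def OBL (b p q r : ℂ) : (CC →L[ℝ] ℝ) →L[ℝ] ℝ :=
  ((starRingEnd ℂ) b * (Complex.I * (q - r))).im •
    ContinuousLinearMap.apply ℝ ℝ ((p + q, q + r) : CC) -
  ((starRingEnd ℂ) b * (q + r)).im •
    ContinuousLinearMap.apply ℝ ℝ ((Complex.I * (p - q), Complex.I * (q - r)) : CC)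

theorem OMb_eq (g : CC → ℝ) (F : CC) (p q r : ℂ) :
    OMb g F p q r = OBL F.2 p q r (fderiv ℝ g F) + 2 * (‖q‖ ^ 2 - ‖r‖ ^ 2) * g F := by
  unfold OMb OBL
  simp only [_root_.sub_apply, _root_.smul_apply,
    ContinuousLinearMap.apply_apply, smul_eq_mul]
  ring

/-- size of the vectors -/
theorem vec1 (p q r : ℂ) : ‖((p + q, q + r) : CC)‖ ≤ ‖p‖ + ‖q‖ + ‖r‖ := by
  rw [Prod.norm_def]
  refine max_le ?_ ?_
  · refine (norm_add_le p q).trans ?_
    have := norm_nonneg r
    linarith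
  · refine (norm_add_le q r).trans ?_
    have := norm_nonneg p
    linarith

theorem vec2 (p q r : ℂ) :
    ‖((Complex.I * (p - q), Complex.I * (q - r)) : CC)‖ ≤ ‖p‖ + ‖q‖ + ‖r‖ := by
  rw [Prod.norm_def]
  refine max_le ?_ ?_
  · rw [norm_mul, Complex.norm_I, one_mul]
    refine (norm_sub_le p q).trans ?_
    have := norm_nonneg r
    linarith
  · rw [norm_mul, Complex.norm_I, one_mul]
    refine (norm_sub_le q r).trans ?_
    have := norm_nonneg p
    linarith

theorem DVL_sub (p q r φ φ' : ℂ) (D : CC →L[ℝ] CC →L[ℝ] ℝ) {K : ℝ} (hK : ‖D‖ ≤ K) :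
    |DVL p q r φ D - DVL p q r φ' D| ≤ K * (‖p‖ + ‖q‖ + ‖r‖) * ‖φ - φ'‖ := by
  have hK0 : 0 ≤ K := (norm_nonneg D).trans hK
  have e : DVL p q r φ D - DVL p q r φ' D =
      D (p + q, q + r) ((φ - φ') / 2, (φ - φ') / 2) +
      D (Complex.I * (p - q), Complex.I * (q - r))
        (-(Complex.I * (φ - φ') / 2), Complex.I * (φ - φ') / 2) := by
    have e1 : (((φ - φ') / 2, (φ - φ') / 2) : CC) = (φ / 2, φ / 2) - (φ' / 2, φ' / 2) := by
      rw [Prod.mk_sub_mk, sub_div]
    have e2 : ((-(Complex.I * (φ - φ') / 2), Complex.I * (φ - φ') / 2) : CC) =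
        (-(Complex.I * φ / 2), Complex.I * φ / 2) -
          (-(Complex.I * φ' / 2), Complex.I * φ' / 2) := by
      rw [Prod.mk_sub_mk]
      refine Prod.ext ?_ ?_
      · show -(Complex.I * (φ - φ') / 2) = -(Complex.I * φ / 2) - -(Complex.I * φ' / 2)
        ring
      · show Complex.I * (φ - φ') / 2 = Complex.I * φ / 2 - Complex.I * φ' / 2
        ring
    rw [e1, e2, map_sub, map_sub]
    show D (p + q, q + r) (φ / 2, φ / 2) + D (Complex.I * (p - q), Complex.I * (q - r))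
        (-(Complex.I * φ / 2), Complex.I * φ / 2) -
      (D (p + q, q + r) (φ' / 2, φ' / 2) + D (Complex.I * (p - q), Complex.I * (q - r))
        (-(Complex.I * φ' / 2), Complex.I * φ' / 2)) = _
    ring
  have n1 : ‖(((φ - φ') / 2, (φ - φ') / 2) : CC)‖ = ‖φ - φ'‖ / 2 := by
    rw [Prod.norm_def, max_self, norm_div, Complex.norm_ofNat]
  have n2 : ‖((-(Complex.I * (φ - φ') / 2), Complex.I * (φ - φ') / 2) : CC)‖ =
      ‖φ - φ'‖ / 2 := by
    rw [Prod.norm_def, norm_neg, max_self, norm_div, norm_mul, Complex.norm_I, one_mul,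
      Complex.norm_ofNat]
  have hop : ∀ u v : CC, |D u v| ≤ K * ‖u‖ * ‖v‖ := by
    intro u v
    refine ((D u).le_opNorm v).trans ?_
    exact mul_le_mul_of_nonneg_right ((D.le_opNorm u).trans
      (mul_le_mul_of_nonneg_right hK (norm_nonneg _))) (norm_nonneg _)
  rw [e]
  refine (abs_add_le _ _).trans ?_
  have a1 := hop (p + q, q + r) ((φ - φ') / 2, (φ - φ') / 2)
  have a2 := hop (Complex.I * (p - q), Complex.I * (q - r))
        (-(Complex.I * (φ - φ') / 2), Complex.I * (φ - φ') / 2)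
  rw [n1] at a1
  rw [n2] at a2
  have b1 : K * ‖((p + q, q + r) : CC)‖ * (‖φ - φ'‖ / 2) ≤
      K * (‖p‖ + ‖q‖ + ‖r‖) * (‖φ - φ'‖ / 2) :=
    mul_le_mul_of_nonneg_right (mul_le_mul_of_nonneg_left (vec1 p q r) hK0) (by positivity)
  have b2 : K * ‖((Complex.I * (p - q), Complex.I * (q - r)) : CC)‖ * (‖φ - φ'‖ / 2) ≤
      K * (‖p‖ + ‖q‖ + ‖r‖) * (‖φ - φ'‖ / 2) :=
    mul_le_mul_of_nonneg_right (mul_le_mul_of_nonneg_left (vec2 p q r) hK0) (by positivity)
  linarith

theorem abs_im_le (a s : ℂ) : |((starRingEnd ℂ) a * s).im| ≤ ‖a‖ * ‖s‖ := by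
  refine (Complex.abs_im_le_norm _).trans ?_
  rw [norm_mul, Complex.norm_conj]

theorem OAL_sub (a a' p q r : ℂ) (D : CC →L[ℝ] ℝ) {K : ℝ} (hK : ‖D‖ ≤ K) :
    |OAL a p q r D - OAL a' p q r D| ≤ 2 * K * (‖p‖ + ‖q‖ + ‖r‖) ^ 2 * ‖a - a'‖ := by
  have hK0 : 0 ≤ K := (norm_nonneg D).trans hK
  have e : OAL a p q r D - OAL a' p q r D =
      ((starRingEnd ℂ) (a - a') * (Complex.I * (p - q))).im * D (p + q, q + r) -
      ((starRingEnd ℂ) (a - a') * (p + q)).im * D (Complex.I * (p - q), Complex.I * (q - r)) := by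
    unfold OAL
    simp only [_root_.sub_apply, _root_.smul_apply,
      ContinuousLinearMap.apply_apply, smul_eq_mul, map_sub, sub_mul, Complex.sub_im]
    ring
  rw [e]
  have hop : ∀ u : CC, |D u| ≤ K * ‖u‖ := fun u =>
    (D.le_opNorm u).trans (mul_le_mul_of_nonneg_right hK (norm_nonneg _))
  have a1 : |((starRingEnd ℂ) (a - a') * (Complex.I * (p - q))).im * D (p + q, q + r)| ≤
      (‖a - a'‖ * (‖p‖ + ‖q‖ + ‖r‖)) * (K * (‖p‖ + ‖q‖ + ‖r‖)) := by
    rw [abs_mul]
    refine mul_le_mul ((abs_im_le _ _).trans (mul_le_mul_of_nonneg_left ?_ (norm_nonneg _)))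
      ((hop _).trans (mul_le_mul_of_nonneg_left (vec1 p q r) hK0)) (abs_nonneg _) (by positivity)
    rw [norm_mul, Complex.norm_I, one_mul]
    refine (norm_sub_le p q).trans ?_
    have := norm_nonneg r
    linarith
  have a2 : |((starRingEnd ℂ) (a - a') * (p + q)).im *
      D (Complex.I * (p - q), Complex.I * (q - r))| ≤
      (‖a - a'‖ * (‖p‖ + ‖q‖ + ‖r‖)) * (K * (‖p‖ + ‖q‖ + ‖r‖)) := by
    rw [abs_mul]
    refine mul_le_mul ((abs_im_le _ _).trans (mul_le_mul_of_nonneg_left ?_ (norm_nonneg _)))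
      ((hop _).trans (mul_le_mul_of_nonneg_left (vec2 p q r) hK0)) (abs_nonneg _) (by positivity)
    refine (norm_add_le p q).trans ?_
    have := norm_nonneg r
    linarith
  refine (abs_sub _ _).trans ?_
  linarith

theorem OBL_sub (a a' p q r : ℂ) (D : CC →L[ℝ] ℝ) {K : ℝ} (hK : ‖D‖ ≤ K) :
    |OBL a p q r D - OBL a' p q r D| ≤ 2 * K * (‖p‖ + ‖q‖ + ‖r‖) ^ 2 * ‖a - a'‖ := by
  have hK0 : 0 ≤ K := (norm_nonneg D).trans hK
  have e : OBL a p q r D - OBL a' p q r D =
      ((starRingEnd ℂ) (a - a') * (Complex.I * (q - r))).im * D (p + q, q + r) -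
      ((starRingEnd ℂ) (a - a') * (q + r)).im * D (Complex.I * (p - q), Complex.I * (q - r)) := by
    unfold OBL
    simp only [_root_.sub_apply, _root_.smul_apply,
      ContinuousLinearMap.apply_apply, smul_eq_mul, map_sub, sub_mul, Complex.sub_im]
    ring
  rw [e]
  have hop : ∀ u : CC, |D u| ≤ K * ‖u‖ := fun u =>
    (D.le_opNorm u).trans (mul_le_mul_of_nonneg_right hK (norm_nonneg _))
  have a1 : |((starRingEnd ℂ) (a - a') * (Complex.I * (q - r))).im * D (p + q, q + r)| ≤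
      (‖a - a'‖ * (‖p‖ + ‖q‖ + ‖r‖)) * (K * (‖p‖ + ‖q‖ + ‖r‖)) := by
    rw [abs_mul]
    refine mul_le_mul ((abs_im_le _ _).trans (mul_le_mul_of_nonneg_left ?_ (norm_nonneg _)))
      ((hop _).trans (mul_le_mul_of_nonneg_left (vec1 p q r) hK0)) (abs_nonneg _) (by positivity)
    rw [norm_mul, Complex.norm_I, one_mul]
    refine (norm_sub_le q r).trans ?_
    have := norm_nonneg p
    linarith
  have a2 : |((starRingEnd ℂ) (a - a') * (q + r)).im *
      D (Complex.I * (p - q), Complex.I * (q - r))| ≤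
      (‖a - a'‖ * (‖p‖ + ‖q‖ + ‖r‖)) * (K * (‖p‖ + ‖q‖ + ‖r‖)) := by
    rw [abs_mul]
    refine mul_le_mul ((abs_im_le _ _).trans (mul_le_mul_of_nonneg_left ?_ (norm_nonneg _)))
      ((hop _).trans (mul_le_mul_of_nonneg_left (vec2 p q r) hK0)) (abs_nonneg _) (by positivity)
    refine (norm_add_le q r).trans ?_
    have := norm_nonneg p
    linarith
  refine (abs_sub _ _).trans ?_
  linarith

theorem Vm_sub {m : CC → ℂ} {L : ℝ}
    (hL : ∀ F F' : CC, ‖m F - m F'‖ ≤ L * (‖F.1 - F'.1‖ + ‖F.2 - F'.2‖)) (hL0 : 0 ≤ L) (n : ℝ)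
    (F y : CC) (p q r : ℂ) :
    ‖Vm m n F p q r - Vm m n (F - y) p q r‖ ≤ 2 * L * ‖y‖ * (‖p‖ + ‖q‖ + ‖r‖) := by
  have e : Vm m n F p q r - Vm m n (F - y) p q r =
      (m F - m (F - y)) * p + (starRingEnd ℂ) (m F - m (F - y)) * r := by
    unfold Vm
    rw [map_sub]
    ring
  have h1 : ‖m F - m (F - y)‖ ≤ 2 * L * ‖y‖ := by
    refine (hL F (F - y)).trans ?_
    have h2 : ‖F.1 - (F - y).1‖ ≤ ‖y‖ := by
      rw [Prod.fst_sub, sub_sub_cancel]
      exact norm_fst_le y
    have h3 : ‖F.2 - (F - y).2‖ ≤ ‖y‖ := by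
      rw [Prod.snd_sub, sub_sub_cancel]
      exact norm_snd_le y
    calc L * (‖F.1 - (F - y).1‖ + ‖F.2 - (F - y).2‖) ≤ L * (‖y‖ + ‖y‖) :=
          mul_le_mul_of_nonneg_left (add_le_add h2 h3) hL0
      _ = 2 * L * ‖y‖ := by ring
  rw [e]
  refine (norm_add_le _ _).trans ?_
  rw [norm_mul, norm_mul, Complex.norm_conj]
  have h4 := mul_le_mul_of_nonneg_right h1 (norm_nonneg p)
  have h5 := mul_le_mul_of_nonneg_right h1 (norm_nonneg r)
  have h6 : 0 ≤ 2 * L * ‖y‖ * ‖q‖ := by positivity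
  linarith

end Pool.Agent.W410.IX.Mol
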